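import Mathlib
import Pool.Agent.Helper920.Family
import Pool.Agent.Helper920.Op

set_option autoImplicit false

namespace Pool.Agent.Results.MP_b124ce_co.RestrictionFailsH

open Set

/-- IE-operator on the set of all points of the type `S`: (cl1), (cl2), (cl3) and (cl4'). -/
structure IsIEOperator {S : Type} (f : Set S → Set S) : Prop where
  cl1 : ∀ X, X ⊆ f X
  cl2 : ∀ X Y, X ⊆ Y → f X ⊆ f Y
  cl3 : ∀ X, f (f X) = f X
  cl4' : ∀ X Y : Set S, ∀ p, p ∈ f Y → p ∉ f (Y \ X) → ∃ x ∈ X, x ∈ f (insert p (Y \ {x}))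

/-- `X` is independent for `f`. -/
def IsIndependent {S : Type} (f : Set S → Set S) (X : Set S) : Prop := ∀ x ∈ X, x ∉ f (X \ {x})

/-- `X` is spanning for `f`. -/
def IsSpanning {S : Type} (f : Set S → Set S) (X : Set S) : Prop := f X = univ

/-- Condition (C). -/
def CondC {S : Type} (f : Set S → Set S) : Prop :=
  ∀ (Y : Set S) (p : S), p ∈ f Y →
    ∃ U : Set S, Minimal (fun W : Set S => W ⊆ Y ∧ p ∈ f W) U ∧ IsIndependent f U

/-- Condition (H). -/
def CondH {S : Type} (f : Set S → Set S) : Prop :=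
  ∀ (Y : Set S) (p : S), p ∉ f Y →
    ∃ V : Set S, Maximal (fun W : Set S => Y ⊆ W ∧ p ∉ f W) V ∧ IsSpanning f (insert p V)

/-- The restriction of `f` to `X`, an operator on the points of `X`: `Y ↦ f Y ∩ X`. -/
def restrict {S : Type} (f : Set S → Set S) (X : Set S) : Set X → Set X :=
  fun Y => {x : X | (x : S) ∈ f (Subtype.val '' Y)}

open Pool.Agent.Helper920.Family Pool.Agent.Helper920.Op in
/-- On a countable set there are an IE-operator `f` with (C) and (H) and a subset `X` such that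
the restriction of `f` to `X` does not satisfy (H). -/
theorem result : ∃ (f : Set (ℕ × Fin 3) → Set (ℕ × Fin 3)) (X : Set (ℕ × Fin 3)),
    IsIEOperator f ∧ CondC f ∧ CondH f ∧ ¬ CondH (restrict f X) := by
  obtain ⟨B, hex, hanti, hcomp, hJL, hT, hmid⟩ := exists_family
  have h0 : ∅ ∉ B := by
    intro h
    have h2 : ∅ = JL := hanti ∅ h JL hJL (empty_subset _)
    have h3 : ((0 : ℕ), (0 : Fin 3)) ∈ JL := Or.inl rfl
    rw [← h2] at h3
    exact h3
  refine ⟨op B, JK, ⟨op_ext, fun X Y h => op_mono h, op_idem, fun X Y p => op_exchange hex X Y p⟩,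
    fun Y p hp => op_C hanti h0 Y p hp, fun Y p hp => op_H hex hanti hcomp Y p hp, ?_⟩
  intro hH
  -- the point `p` of the second column
  have hpX : ((0 : ℕ), (1 : Fin 3)) ∈ JK := Or.inr rfl
  have hJno : ¬ ∃ Y ∈ B, Y ⊆ J := fun ⟨Y, hY, hYJ⟩ =>
      proper_sdiff hanti hJL (show ((0 : ℕ), (2 : Fin 3)) ∈ JL from Or.inr rfl)
        ⟨Y, hY, fun x hx => ⟨Or.inl (hYJ hx), fun h => by
          have h1 : x.2 = 0 := hYJ hx
          rw [mem_singleton_iff] at h
          rw [h] at h1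
          exact absurd h1 (show ¬ ((2 : Fin 3) = 0) by decide)⟩⟩
  obtain ⟨V, hV, hs⟩ := hH {x : JK | (x : ℕ × Fin 3) ∈ J} ⟨(0, 1), hpX⟩ (by
    intro h
    have h' : ((0 : ℕ), (1 : Fin 3)) ∈ op B (Subtype.val '' {x : JK | (x : ℕ × Fin 3) ∈ J}) := h
    rw [op_id (by
      rintro ⟨Y, hY, hYJ⟩
      apply hJno
      refine ⟨Y, hY, ?_⟩
      intro x hx
      obtain ⟨y, hy, rfl⟩ := hYJ hx
      exact hy)] at h'
    obtain ⟨y, hy, hy2⟩ := h'
    have hy3 : (y : ℕ × Fin 3).2 = 0 := hy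
    rw [hy2] at hy3
    exact absurd hy3 (show ¬ ((1 : Fin 3) = 0) by decide))
  -- transfer `V` to the big ground set
  set V' : Set (ℕ × Fin 3) := Subtype.val '' V with hV'
  have hJV : J ⊆ V' := by
    intro x hx
    exact ⟨⟨x, Or.inl hx⟩, hV.1.1 hx, rfl⟩
  have hVJK : V' ⊆ JK := by
    rintro x ⟨y, _, rfl⟩
    exact y.2
  have hpV : ((0 : ℕ), (1 : Fin 3)) ∉ op B V' := hV.1.2
  have hVno : ¬ ∃ Y ∈ B, Y ⊆ V' := fun h => hpV (Or.inr h)
  have hpV' : ((0 : ℕ), (1 : Fin 3)) ∉ V' := fun h => hpV (Or.inl h)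
  have himg : Subtype.val '' (insert (⟨(0, 1), hpX⟩ : JK) V) = insert ((0 : ℕ), (1 : Fin 3)) V' := by
    rw [image_insert_eq]
  -- `insert p V'` contains a member of `B`
  have hspan : ∃ Y ∈ B, Y ⊆ insert ((0 : ℕ), (1 : Fin 3)) V' := by
    by_contra hc
    have hall : JK ⊆ insert ((0 : ℕ), (1 : Fin 3)) V' := by
      intro x hx
      have h1 : (⟨x, hx⟩ : JK) ∈ restrict (op B) JK (insert (⟨(0, 1), hpX⟩ : JK) V) := by
        have hs' : restrict (op B) JK (insert (⟨(0, 1), hpX⟩ : JK) V) = univ := hs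
        rw [hs']; trivial
      have h2 : x ∈ op B (Subtype.val '' (insert (⟨(0, 1), hpX⟩ : JK) V)) := h1
      rw [himg, op_id hc] at h2
      exact h2
    apply hc
    refine ⟨T univ, hT univ infinite_univ, ?_⟩
    rintro x (hx | hx)
    · exact hall (Or.inl hx.1)
    · exact hall (Or.inr hx.1)
  obtain ⟨Y, hY, hYV⟩ := hspan
  have hpY : ((0 : ℕ), (1 : Fin 3)) ∈ Y := by
    by_contra h
    apply hVno
    refine ⟨Y, hY, fun x hx => ?_⟩
    rcases hYV hx with h' | h'
    · exact absurd (h' ▸ hx) h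
    · exact h'
  have hVY : insert ((0 : ℕ), (1 : Fin 3)) V' ⊆ Y := by
    apply insert_subset hpY
    intro x hx
    by_contra hxY
    apply hVno
    refine ⟨_, hex Y hY _ hpY x hxY, ?_⟩
    apply insert_subset hx
    rintro y ⟨hy, hyp⟩
    rcases hYV hy with h' | h'
    · exact absurd h' hyp
    · exact h'
  have heq : Y = insert ((0 : ℕ), (1 : Fin 3)) V' := Subset.antisymm hYV hVY
  exact hmid Y (hJV.trans (by rw [heq]; exact subset_insert _ _))
    (by rw [heq]; exact insert_subset hpX hVJK) hY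

end Pool.Agent.Results.MP_b124ce_co.RestrictionFailsH
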